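import Pool.Agent.Q94.FPH

/-!
# The functional volume product is not monotone along the Fokker-Planck flow

For every dimension `n ≥ 1` there are functions `f` with Gaussian decay and barycenter zero, and
functions `f` with Gaussian decay whose polar has barycenter zero, for which the volume product of
the Fokker-Planck evolution is strictly larger at some time than at a later time.

First example (on the line, then multiplied by Gaussians): half of a Gaussian plus a very small
bump far away on the other side.  The bump kills one half of the polar.  What remains is the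
functional `∫ g * ∫_{y > 0} g°`, which is `π` for the Gaussian but at least `3.2` for the centred
half Gaussian.

Second example: the indicator of `[0,1]` together with a very short interval at `-1`.  Its polar is
`exp (-|y|)`, but after a short time the short interval is invisible and the volume product is
larger than `2π`, the limit at infinity.
-/

set_option autoImplicit false

open MeasureTheory Set Q94.FP

namespace Pool.Agent.Results.MP_31abd3_an.NotMonotone

theorem ev_pos_somewhere {h : ℝ → ℝ} (hh0 : ∀ x, 0 ≤ h x) (hi : Integrable h)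
    (hi1 : Integrable fun x => x * h x) (hi2 : Integrable fun x => x ^ 2 * h x)
    (hW : 0 < ∫ x, h x) {s : ℝ} (h0 : 0 < s) (h1 : s < 1) : ∃ x, 0 < ev h s x := by
  have hc := kc_pos h0 h1
  exact ⟨0, lt_of_lt_of_le (by positivity) (ev_ge hh0 hi hi1 hi2 hW h0 h1 0)⟩

theorem T_decay {n : ℕ} (i₀ : Fin n) {h : ℝ → ℝ} {C : ℝ} (hh0 : ∀ x, 0 ≤ h x)
    (hC : ∀ x, h x ≤ C * Real.exp (-x ^ 2 / 4)) (x : E n) :
    T i₀ h x ≤ C * Real.exp (-‖x‖ ^ 2 / 4) := by
  rw [T_split]
  have h1 : ∏ i ∈ Finset.univ.erase i₀, gs (x i)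
      ≤ ∏ i ∈ Finset.univ.erase i₀, Real.exp (-(x i) ^ 2 / 4) := by
    refine Finset.prod_le_prod (fun i _ => (gs_pos _).le) fun i _ => ?_
    unfold gs
    rw [Real.exp_le_exp]
    nlinarith [sq_nonneg (x i)]
  have h2 : Real.exp (-‖x‖ ^ 2 / 4) = Real.exp (-(x i₀) ^ 2 / 4)
      * ∏ i ∈ Finset.univ.erase i₀, Real.exp (-(x i) ^ 2 / 4) := by
    rw [Finset.mul_prod_erase Finset.univ (fun i => Real.exp (-(x i) ^ 2 / 4))
      (Finset.mem_univ i₀), ← Real.exp_sum, EuclideanSpace.norm_sq_eq, ← Finset.sum_div,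
      Finset.sum_neg_distrib]
    congr 3
    refine Finset.sum_congr rfl fun i _ => ?_
    rw [Real.norm_eq_abs, sq_abs]
  rw [h2, ← mul_assoc]
  exact mul_le_mul (hC _) h1 (Finset.prod_nonneg fun i _ => (gs_pos _).le)
    (le_trans (hh0 _) (hC _))

theorem exp_abs_int {c : ℝ} (hc : 0 < c) : Integrable fun y : ℝ => Real.exp (-(c * |y|)) := by
  rw [← integrableOn_univ, ← Iic_union_Ioi (a := (0 : ℝ))]
  refine IntegrableOn.union ?_ ?_
  · refine (integrableOn_exp_mul_Iic hc 0).congr_fun (fun y hy => ?_) measurableSet_Iic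
    beta_reduce
    rw [abs_of_nonpos hy]
    congr 1
    ring
  · refine (integrableOn_exp_mul_Ioi (neg_lt_zero.2 hc) 0).congr_fun (fun y hy => ?_)
      measurableSet_Ioi
    beta_reduce
    rw [abs_of_pos hy]
    congr 1
    ring

theorem mul_exp_abs_int : Integrable fun y : ℝ => y * Real.exp (-|y|) := by
  refine Integrable.mono' ((exp_abs_int (c := 1 / 2) (by norm_num)).const_mul 2)
    (by fun_prop) ?_
  refine Filter.Eventually.of_forall fun y => ?_
  rw [norm_mul, Real.norm_eq_abs, Real.norm_of_nonneg (Real.exp_pos _).le]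
  have h1 := Real.add_one_le_exp (1 / 2 * |y|)
  have h2 : |y| ≤ 2 * Real.exp (1 / 2 * |y|) := by linarith
  calc |y| * Real.exp (-|y|) ≤ 2 * Real.exp (1 / 2 * |y|) * Real.exp (-|y|) :=
        mul_le_mul_of_nonneg_right h2 (Real.exp_pos _).le
    _ = _ := by
        rw [mul_assoc, ← Real.exp_add]
        congr 2
        ring

/-- For every `n ≥ 1` the volume product is not nondecreasing along the Fokker-Planck flow, neither
for functions with barycenter zero nor for functions whose polar has barycenter zero. -/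
theorem result (n : ℕ) (hn : 1 ≤ n) :
    (∃ f : E n → ℝ, Admissible f ∧ (∃ C, ∀ x, f x ≤ C * Real.exp (-‖x‖ ^ 2 / 4)) ∧
      BarycenterZero f ∧
      ∃ t₁ t₂ : ℝ, 0 ≤ t₁ ∧ t₁ < t₂ ∧
        volProd (fokkerPlanck f t₂) < volProd (fokkerPlanck f t₁)) ∧
    (∃ f : E n → ℝ, Admissible f ∧ (∃ C, ∀ x, f x ≤ C * Real.exp (-‖x‖ ^ 2 / 4)) ∧
      BarycenterZero (polar f) ∧
      ∃ t₁ t₂ : ℝ, 0 ≤ t₁ ∧ t₁ < t₂ ∧
        volProd (fokkerPlanck f t₂) < volProd (fokkerPlanck f t₁)) := by
  set i₀ : Fin n := ⟨0, hn⟩ with hi₀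
  constructor
  · obtain ⟨a, L, ε, s, ha, hL, haL, hε, hε1, hs0, hs1, hcent, hlt⟩ := exA
    have hL0 : 0 < L := by linarith
    have hf0 := fun x => fA_nonneg (a := a) (L := L) hε.le x
    have hW : 0 < ∫ x, fA a L ε x := by
      rw [fA0]
      have := hA_pos
      positivity
    have hμ : ∫ z, z * fA a L ε z = 0 := by
      rw [fA1, hcent]
      ring
    have hint := polar_ev_int hf0 (fA0i a L ε) (fA1i a L ε) (fA2i a L ε) hW hs0 hs1
    have hpint := fA_polar_int hL0 haL hε
    have hpos : ∃ x, 0 < fA a L ε x := by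
      refine ⟨-a + 1, ?_⟩
      rw [fA_right haL (by linarith)]
      exact gs_pos _
    refine ⟨T i₀ (fA a L ε), T_admissible i₀ hf0 (fA_meas a L ε) (fA0i a L ε) hW, ?_,
      T_bary i₀ hf0 (fA0i a L ε) (fA1i a L ε) hW hμ, 0, -Real.log s, le_rfl,
      neg_pos.2 (Real.log_neg hs0 hs1), ?_⟩
    · refine ⟨Real.exp (a ^ 2 / 2) + Real.exp ((L + 1) ^ 2 / 4), fun x => ?_⟩
      refine T_decay i₀ hf0 (fun x => ?_) x
      unfold fA
      rw [add_mul]
      refine add_le_add ?_ ?_
      · refine (ga_le a x).trans ?_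
        unfold gs
        rw [← Real.exp_add, Real.exp_le_exp]
        nlinarith [sq_nonneg (x / 2 + a)]
      · by_cases hx : x ∈ Icc (-(L + 1)) (-L)
        · unfold bp
          rw [indicator_of_mem hx, ← Real.exp_add]
          refine hε1.trans (Real.one_le_exp ?_)
          nlinarith [hx.1, hx.2]
        · unfold bp
          rw [indicator_of_notMem hx]
          positivity
    · have e1 : fokkerPlanck (T i₀ (fA a L ε)) (-Real.log s) = T i₀ (ev (fA a L ε) s) := by
        ext x
        rw [fp_T i₀ (neg_pos.2 (Real.log_neg hs0 hs1)), neg_neg, Real.exp_log hs0]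
      have e2 : fokkerPlanck (T i₀ (fA a L ε)) 0 = T i₀ (fA a L ε) := by
        ext x
        unfold fokkerPlanck
        rw [if_pos rfl]
      rw [e1, e2, volProd_T i₀ (ev_nonneg hf0 hs0 hs1) (ev_int (fA0i a L ε) hs0 hs1)
        (ev_pos_somewhere hf0 (fA0i a L ε) (fA1i a L ε) (fA2i a L ε) hW hs0 hs1) hint,
        volProd_T i₀ hf0 (fA0i a L ε) hpos hpint, ev_mass (fA0i a L ε) hs0 hs1]
      have hC := Cn_pos i₀
      refine (ENNReal.ofReal_lt_ofReal_iff ?_).2 (mul_lt_mul_of_pos_left hlt (by positivity))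
      have h0 : 0 ≤ (∫ z, fA a L ε z) * ∫ y, polar1 (ev (fA a L ε) s) y :=
        mul_nonneg hW.le (integral_nonneg fun y => polar1_nonneg _ y)
      exact mul_pos (by positivity) (lt_of_le_of_lt h0 hlt)
  · obtain ⟨ε, s₁, s₂, h0, h1, hs20, hs21, hs11, hlt⟩ := exB
    have hs10 : 0 < s₁ := hs20.trans hs21
    have hs22 : s₂ < 1 := hs21.trans hs11
    have hf0 := fB_nonneg ε
    have hW := fB_W h0
    have hint1 := polar_ev_int hf0 (fB0i ε) (fB1i ε) (fB2i ε) hW hs10 hs11
    have hint2 := polar_ev_int hf0 (fB0i ε) (fB1i ε) (fB2i ε) hW hs20 hs22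
    have hpos : ∃ x, 0 < fB ε x := ⟨1, by rw [fB_one h0 h1]; exact one_pos⟩
    have hlog : -Real.log s₁ < -Real.log s₂ := neg_lt_neg (Real.log_lt_log hs20 hs21)
    have hpol : polar1 (fB ε) = fun y => Real.exp (-|y|) := by
      ext y
      exact fB_polar h0 h1 y
    have hpi0 : Integrable fun y : ℝ => Real.exp (-|y|) := by
      have h := exp_abs_int (c := 1) one_pos
      simpa using h
    refine ⟨T i₀ (fB ε), T_admissible i₀ hf0 (fB_meas ε) (fB0i ε) hW, ?_, ?_,
      -Real.log s₁, -Real.log s₂, (neg_pos.2 (Real.log_neg hs10 hs11)).le, hlog, ?_⟩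
    · refine ⟨Real.exp (1 / 4), fun x => ?_⟩
      refine T_decay i₀ hf0 (fun x => ?_) x
      by_cases hx : 0 < fB ε x
      · rw [← Real.exp_add]
        refine (fB_le_one h1 x).trans (Real.one_le_exp ?_)
        have h2 := fB_supp h1 hx
        have h3 : x ^ 2 ≤ 1 := by
          rw [← sq_abs]
          nlinarith [abs_nonneg x]
        linarith
      · refine (not_lt.1 hx).trans ?_
        positivity
    · have : polar (T i₀ (fB ε)) = T i₀ (polar1 (fB ε)) := by
        ext y
        exact polar_T i₀ hpos y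
      rw [this, hpol]
      refine T_bary i₀ (fun y => (Real.exp_pos _).le) hpi0 mul_exp_abs_int ?_ ?_
      · refine (integral_pos_iff_support_of_nonneg (fun y => (Real.exp_pos _).le) hpi0).2 ?_
        have : Function.support (fun y : ℝ => Real.exp (-|y|)) = univ := by
          ext y
          simp [(Real.exp_pos (-|y|)).ne']
        rw [this]
        simp
      · exact odd_int (fun y => Real.exp (-|y|)) fun y => by rw [abs_neg]
    · have e1 : ∀ s, 0 < s → s < 1 →
          fokkerPlanck (T i₀ (fB ε)) (-Real.log s) = T i₀ (ev (fB ε) s) := by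
        intro s hs0 hs1
        ext x
        rw [fp_T i₀ (neg_pos.2 (Real.log_neg hs0 hs1)), neg_neg, Real.exp_log hs0]
      rw [e1 s₁ hs10 hs11, e1 s₂ hs20 hs22,
        volProd_T i₀ (ev_nonneg hf0 hs10 hs11) (ev_int (fB0i ε) hs10 hs11)
        (ev_pos_somewhere hf0 (fB0i ε) (fB1i ε) (fB2i ε) hW hs10 hs11) hint1,
        volProd_T i₀ (ev_nonneg hf0 hs20 hs22) (ev_int (fB0i ε) hs20 hs22)
        (ev_pos_somewhere hf0 (fB0i ε) (fB1i ε) (fB2i ε) hW hs20 hs22) hint2,
        ev_mass (fB0i ε) hs10 hs11, ev_mass (fB0i ε) hs20 hs22]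
      have hC := Cn_pos i₀
      refine (ENNReal.ofReal_lt_ofReal_iff ?_).2 (mul_lt_mul_of_pos_left hlt (by positivity))
      have h0' : 0 ≤ (∫ z, fB ε z) * ∫ y, polar1 (ev (fB ε) s₂) y :=
        mul_nonneg hW.le (integral_nonneg fun y => polar1_nonneg _ y)
      exact mul_pos (by positivity) (lt_of_le_of_lt h0' hlt)

end Pool.Agent.Results.MP_31abd3_an.NotMonotone
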